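import Pool.Agent.P.MP_aabf10_an.Seq

/-!
Polynomials span the weighted sequence space on the points `lam (2 n)` exactly when the even part
of the Fourier class defined by the square roots of the weights is quasi-analytic at `0`.
-/

namespace Pool.Agent.Results.MP_aabf10_an.PolySpansF

open Pool.Agent.P.MP_aabf10_an

theorem result (q : ℝ → ℝ) (hq : Cinf q) :
    (∃ lam, IsEnum q lam) ∧ ∀ lam, IsEnum q lam → ∀ (k : ℕ) (s : ℝ), 0 < s → ∀ W : ℕ → ℝ,
      (∀ n, W n = (n : ℝ) ^ k * (lam (2 * n) - lam (2 * n - 1)) ^ s) →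
      ((∀ f : ℕ → ℝ, Summable (fun n => W (n + 1) * f (n + 1) ^ 2) →
        ∀ ε > 0, ∃ p : Polynomial ℝ,
          Summable (fun n => W (n + 1) * p.eval (lam (2 * (n + 1))) ^ 2) ∧
          ∑' n, W (n + 1) * (f (n + 1) - p.eval (lam (2 * (n + 1)))) ^ 2 < ε) ↔
        ∀ g, InClass (fun n => √(W n)) g → Function.Even g → Flat g → g = 0) :=
  ⟨exists_enum hq, fun _ hl k _ hs _ hW => polySpans_iff hq hl k hs hW⟩

end Pool.Agent.Results.MP_aabf10_an.PolySpansF
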